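import Pool.Agent.W_d741h_h9.H3

/-! MP_d741cf_al, H4 half: the end, (3) of row 539. Typed by helper4. -/

namespace FHH

variable {ac : AH → Prop} {sim : AH → AH → Prop} {O : AH → Fin 15}

theorem Loc.absurd (L : Loc ac sim O) : False := L.dat.false

end FHH
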