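import Pool.Agent.W_d741h_h9.C1
import Pool.Agent.W_d741h_h9.End

/-! MP_d741cf_al, H4 half. -/

namespace FHH

open FH

theorem Ctx.absurd (X : Ctx) : False := by
  obtain ⟨O, h1, h2⟩ := X.exists_pattern
  exact Loc.absurd (ac := X.ac) (sim := X.sim) (O := O)
    { hO := h1
      hmv := h2
      comm := fun x y hx hy h => X.sim_of_comm hx hy h
      trans := fun x y w h h' => X.sim_trans h h'
      sp := fun g h2 h7 => X.T_special g h2 h7 }

/-- The H4 half. -/
theorem hHalf : HHalf := by
  intro K f hK hf
  by_contra hc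
  obtain ⟨N, hN, hN2, hg⟩ := exists_exponent K hK
  exact Ctx.absurd
    { K := K
      f := f
      N := N
      hN := hN
      hN2 := hN2
      hK := hg
      hf := hf
      hZ := fun z hz hi => hc ⟨z, hz, hi⟩ }

end FHH
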