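import Pool.Agent.W_d741_h93.Defs
import Pool.Agent.W_d741g_h37.Rev

/-! MP_d741cf_al, H4 half (proofs row 539): the Artin group of type H4, tubes and chambers. -/

namespace FHH

open FH

/-- The Artin group of type H4. -/
abbrev AH : Type := Artin mH4

/-- The standard generators. -/
def s (i : Fin 4) : AH := PresentedGroup.of i

theorem alt_map {M N : Type*} [Monoid M] [Monoid N] (f : M →* N) (a b : M) (n : ℕ) :
    f (alt a b n) = alt (f a) (f b) n := by
  induction n generalizing a b with
  | zero => simp [alt]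
  | succ n ih => simp [alt, ih]

theorem s_rel {i j : Fin 4} (h : i ≠ j) :
    alt (s i) (s j) (mH4 i j) = alt (s j) (s i) (mH4 i j) := by
  have h1 : PresentedGroup.mk (artinRels mH4) (alt (FreeGroup.of i) (FreeGroup.of j) (mH4 i j) *
      (alt (FreeGroup.of j) (FreeGroup.of i) (mH4 i j))⁻¹) = 1 :=
    PresentedGroup.one_of_mem ⟨i, j, h, rfl⟩
  rw [map_mul, map_inv, alt_map, alt_map, mul_inv_eq_one] at h1
  exact h1

/-- Homomorphisms out of `AH`. -/
theorem exists_hom {G : Type*} [Group G] (x : Fin 4 → G)
    (h : ∀ i j : Fin 4, i ≠ j → alt (x i) (x j) (mH4 i j) = alt (x j) (x i) (mH4 i j)) :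
    ∃ f : AH →* G, ∀ i, f (s i) = x i := by
  refine ⟨PresentedGroup.toGroup (f := x) ?_, fun i => PresentedGroup.toGroup.of _⟩
  rintro r ⟨i, j, hij, rfl⟩
  rw [map_mul, map_inv, alt_map, alt_map, FreeGroup.lift_apply_of, FreeGroup.lift_apply_of,
    h i j hij, mul_inv_cancel]

/-- Induction over words in the generators, from the left end. -/
theorem AH_closure : Subgroup.closure (Set.range s) = (⊤ : Subgroup AH) :=
  PresentedGroup.closure_range_of _

/-- The complements of the Artin monoid of type H4. -/
def CH : Fin 4 → Fin 4 → List (Fin 4)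
  | 0, 1 => [1, 0, 1, 0]
  | 1, 0 => [0, 1, 0, 1]
  | 1, 2 => [2, 1]
  | 2, 1 => [1, 2]
  | 2, 3 => [3, 2]
  | 3, 2 => [2, 3]
  | _, t => [t]

/-- The element of a positive word. -/
def pw (w : List (Fin 4)) : AH := (w.map s).prod

@[simp] theorem pw_nil : pw [] = 1 := rfl

@[simp] theorem pw_cons (i : Fin 4) (w : List (Fin 4)) : pw (i :: w) = s i * pw w := by
  simp [pw]

@[simp] theorem pw_append (u v : List (Fin 4)) : pw (u ++ v) = pw u * pw v := by
  simp [pw]

theorem CH_alt (i j : Fin 4) (h : i ≠ j) : pw (i :: CH i j) = alt (s i) (s j) (mH4 i j) := by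
  fin_cases i <;> fin_cases j <;> first | exact absurd rfl h | simp [CH, mH4, alt]

theorem mH4_symm (i j : Fin 4) : mH4 i j = mH4 j i := by
  revert i j; decide

theorem CH_swap (i j : Fin 4) (h : i ≠ j) : pw (i :: CH i j) = pw (j :: CH j i) := by
  rw [CH_alt i j h, CH_alt j i h.symm, s_rel h, mH4_symm i j]

theorem pw_br {u v : List (Fin 4)} (h : AG.Br CH u v) : pw u = pw v := by
  induction h with
  | nil => rfl
  | cons i _ ih => simp [ih]
  | swap h w =>
    rename_i i j
    have := CH_swap i j h
    rw [← List.cons_append, ← List.cons_append, pw_append, pw_append, this]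
  | trans _ _ h1 h2 => exact h1.trans h2

/-- Equality of positive words by reversing: to be used with `by decide +kernel`. -/
theorem pw_rev (n : ℕ) {u v : List (Fin 4)} (h : AG.rev CH n u v = some ([], [])) :
    pw u = pw v := by
  simpa using pw_br (AG.rev_sound _ _ _ _ _ h)

/-- The words of the nine tubes (0..3 generators, 4, 5, 6 = full twists of rank 2, 7, 8 = full
twists of rank 3). -/
def zw : Fin 9 → List (Fin 4)
  | 0 => [0]
  | 1 => [1]
  | 2 => [2]
  | 3 => [3]
  | 4 => (List.replicate 5 [0, 1]).flatten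
  | 5 => (List.replicate 3 [1, 2]).flatten
  | 6 => (List.replicate 3 [2, 3]).flatten
  | 7 => (List.replicate 10 [0, 1, 2]).flatten
  | 8 => (List.replicate 4 [1, 2, 3]).flatten

/-- The nine standard tubes. -/
def z (t : Fin 9) : AH := pw (zw t)

/-- The half of the central word. -/
def zzw : List (Fin 4) := (List.replicate 15 [0, 1, 2, 3]).flatten

/-- The central element (full twist of H4). -/
def zz : AH := pw zzw * pw zzw

/-- The tube `t` at the chamber `g`. -/
def T (t : Fin 9) (g : AH) : AH := g * z t * g⁻¹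

end FHH
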