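import Pool.Agent.W_d741h_h9.Tab

/-! MP_d741cf_al, H4 half: the finite checks for Lemma C1. -/

namespace FHH

/-- The star of every generator contains an inactive compatible pair. -/
theorem star_inactive (o : Fin 15) (i : Fin 4) : ∃ t u : Fin 9, st i t = true ∧ st i u = true ∧
    cmp t u = true ∧ act o t = false ∧ act o u = false := by
  revert o i; decide +kernel

/-- The star of every generator contains a compatible pair. -/
theorem star_pair (i : Fin 4) : ∃ t u : Fin 9, st i t = true ∧ st i u = true ∧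
    cmp t u = true := by
  revert i; decide +kernel

/-- Two patterns which agree on the star of `i` are equal or exchanged by `mv i`. -/
theorem star_move (o o' : Fin 15) (i : Fin 4)
    (h : ∀ t, st i t = true → act o t = act o' t) : o' = o ∨ o' = mv i o := by
  revert o o' i; decide +kernel

theorem mv_mv (i : Fin 4) (o : Fin 15) : mv i (mv i o) = o := by
  revert i o; decide +kernel

/-! ### closure of a bit mask under compatibility -/

/-- Neighbours (compatible tubes) of the nine tubes as bit masks. -/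
def adjL : List (ℕ × ℕ) :=
  [(0, 220), (1, 440), (2, 481), (3, 339), (4, 139), (5, 390), (6, 269), (7, 55), (8, 110)]

/-- Union of the neighbours of the elements of the mask `c`. -/
def nb (c : ℕ) : List (ℕ × ℕ) → ℕ
  | [] => 0
  | (u, A) :: L => if c.testBit u then A ||| nb c L else nb c L

/-- One closure step inside the mask `m`. -/
def cstep (m c : ℕ) : ℕ := c ||| (m &&& nb c adjL)

/-- The mask `m` is connected (two closure steps from a suitable element suffice). -/
def connM (m : ℕ) : Bool :=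
  [0, 1, 2, 3, 4, 5, 6, 7, 8].any fun v => m.testBit v && (cstep m (cstep m (1 <<< v)) == m)

/-- The 14 triangulations of the hexagon, as masks. -/
def triM : List ℕ := [69, 133, 25, 73, 145, 26, 266, 146, 162, 290, 164, 292, 324, 328]

/-- The 512 check: a mask meeting all 14 triangulations is connected or one of the 15 patterns. -/
theorem check512 : ∀ m : Fin 512, (triM.all fun T => (m.val &&& T) != 0) = true →
    (connM m.val || am.contains m.val) = true := by
  decide +kernel

theorem nb_spec (c : ℕ) (w : ℕ) : ∀ L : List (ℕ × ℕ), (nb c L).testBit w = true →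
    ∃ p ∈ L, c.testBit p.1 = true ∧ p.2.testBit w = true
  | [], h => by simp [nb] at h
  | (u, A) :: L, h => by
    unfold nb at h
    split at h
    · rename_i hu
      rw [Nat.testBit_or, Bool.or_eq_true] at h
      rcases h with h | h
      · exact ⟨(u, A), by simp, hu, h⟩
      · obtain ⟨p, hp, h1⟩ := nb_spec c w L h
        exact ⟨p, by simp [hp], h1⟩
    · obtain ⟨p, hp, h1⟩ := nb_spec c w L h
      exact ⟨p, by simp [hp], h1⟩

theorem cstep_inv (m c : ℕ) (P : ℕ → Prop)
    (h0 : ∀ w, c.testBit w = true → P w)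
    (hs : ∀ w, m.testBit w = true → ∀ p ∈ adjL, P p.1 → p.2.testBit w = true → P w) :
    ∀ w, (cstep m c).testBit w = true → P w := by
  intro w hw
  unfold cstep at hw
  rw [Nat.testBit_or, Nat.testBit_and, Bool.or_eq_true, Bool.and_eq_true] at hw
  rcases hw with h | ⟨h1, h'⟩
  · exact h0 w h
  · obtain ⟨p, hp, h2, h3⟩ := nb_spec c w adjL h'
    exact hs w h1 p hp (h0 _ h2) h3

theorem conn_inv (m : ℕ) (h : connM m = true) : ∃ v, m.testBit v = true ∧
    ∀ P : ℕ → Prop, P v →
      (∀ w, m.testBit w = true → ∀ p ∈ adjL, P p.1 → p.2.testBit w = true → P w) →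
      ∀ w, m.testBit w = true → P w := by
  unfold connM at h
  rw [List.any_eq_true] at h
  obtain ⟨v, _, h⟩ := h
  rw [Bool.and_eq_true, beq_iff_eq] at h
  refine ⟨v, h.1, fun P hv hs w hw => ?_⟩
  rw [← h.2] at hw
  refine cstep_inv m _ P (cstep_inv m _ P ?_ hs) hs w hw
  intro w' hw'
  rw [Nat.one_shiftLeft, Nat.testBit_two_pow] at hw'
  simp only [decide_eq_true_eq] at hw'
  exact hw' ▸ hv

theorem maskB_true : (triM.all fun T => tri.any fun p => T.testBit p.1.val &&
    (T.testBit p.2.1.val && T.testBit p.2.2.val)) = true := by decide +kernel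

theorem check_mask (T : ℕ) (hT : T ∈ triM) : ∃ p ∈ tri, T.testBit p.1.val = true ∧
    T.testBit p.2.1.val = true ∧ T.testBit p.2.2.val = true := by
  have h0 := maskB_true
  rw [List.all_eq_true] at h0
  have h1 := h0 T hT
  rw [List.any_eq_true] at h1
  obtain ⟨p, hp, h2⟩ := h1
  exact ⟨p, hp, by simpa using h2⟩

theorem patB_true : (am.all fun m => (List.finRange 15).any fun o => (List.finRange 9).all
    fun t => m.testBit t.val == act o t) = true := by decide +kernel

theorem check_pat (m : ℕ) (hm : m ∈ am) : ∃ o : Fin 15, ∀ t : Fin 9,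
    m.testBit t.val = act o t := by
  have h0 := patB_true
  rw [List.all_eq_true] at h0
  have h1 := h0 m hm
  rw [List.any_eq_true] at h1
  obtain ⟨o, _, h2⟩ := h1
  rw [List.all_eq_true] at h2
  exact ⟨o, fun t => by simpa using h2 t (List.mem_finRange t)⟩

theorem adjB_true : (adjL.all fun p => (List.finRange 9).any fun t => (t.val == p.1) &&
    (List.finRange 9).all fun u => !(p.2.testBit u.val) || cmp t u) = true := by decide +kernel

theorem check_adj (p : ℕ × ℕ) (hp : p ∈ adjL) : ∃ t : Fin 9, t.val = p.1 ∧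
    ∀ u : Fin 9, p.2.testBit u.val = true → cmp t u = true := by
  have h0 := adjB_true
  rw [List.all_eq_true] at h0
  have h1 := h0 p hp
  rw [List.any_eq_true] at h1
  obtain ⟨t, _, h2⟩ := h1
  rw [Bool.and_eq_true, beq_iff_eq, List.all_eq_true] at h2
  refine ⟨t, h2.1, fun u hu => ?_⟩
  have h3 := h2.2 u (List.mem_finRange u)
  rw [hu] at h3
  simpa using h3

/-- The dichotomy: connected or one of the fifteen patterns. -/
theorem pat_dich (A : Fin 9 → Prop) (R : Fin 9 → Fin 9 → Prop)
    (hR1 : ∀ t u, A t → A u → cmp t u = true → R t u) (hRs : ∀ t u, R t u → R u t)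
    (hRt : ∀ t u v, R t u → R u v → R t v)
    (h3 : ∀ q ∈ tri, ¬ (¬ A q.1 ∧ ¬ A q.2.1 ∧ ¬ A q.2.2)) :
    (∀ t u, A t → A u → t ≠ u → R t u) ∨ ∃ o : Fin 15, ∀ t, A t ↔ act o t = true := by
  classical
  set a : Fin 9 → Bool := fun t => decide (A t) with ha
  set m : ℕ := Nat.ofBits a with hm
  have hlt : m < 512 := Nat.ofBits_lt_two_pow a
  have hbit : ∀ t : Fin 9, m.testBit t.val = true ↔ A t := by
    intro t
    rw [hm, Nat.testBit_ofBits_lt a t.val t.isLt, ha]
    simp
  have hbit9 : ∀ w : ℕ, m.testBit w = true → w < 9 := by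
    intro w hw
    by_contra h
    rw [hm, Nat.testBit_ofBits_ge a w (by omega)] at hw
    exact absurd hw (by simp)
  have hok : (triM.all fun T => (m &&& T) != 0) = true := by
    rw [List.all_eq_true]
    intro T hT
    obtain ⟨p, hp, h1, h2, h3'⟩ := check_mask T hT
    rw [bne_iff_ne]
    intro h0
    have key : ∀ t : Fin 9, T.testBit t.val = true → ¬ A t := by
      intro t ht hac
      have : (m &&& T).testBit t.val = true := by
        rw [Nat.testBit_and, (hbit t).2 hac, ht]; rfl
      rw [h0] at this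
      simp at this
    exact h3 p hp ⟨key _ h1, key _ h2, key _ h3'⟩
  have h512 := check512 ⟨m, hlt⟩ hok
  rw [Bool.or_eq_true] at h512
  rcases h512 with h | h
  · left
    obtain ⟨v, hv, hP⟩ := conn_inv m h
    have hv9 := hbit9 v hv
    have key : ∀ w, m.testBit w = true → ∀ hw : w < 9,
        w = v ∨ R ⟨v, hv9⟩ ⟨w, hw⟩ := by
      intro w hw
      refine (hP (fun w => m.testBit w = true ∧ ∀ hw : w < 9, w = v ∨ R ⟨v, hv9⟩ ⟨w, hw⟩)
        ⟨hv, fun _ => Or.inl rfl⟩ ?_ w hw).2
      intro w' hw' p hp hPp hb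
      refine ⟨hw', fun h9 => ?_⟩
      obtain ⟨t, ht, hadj⟩ := check_adj p hp
      have h1 : m.testBit t.val = true := by rw [ht]; exact hPp.1
      have h4 : R t ⟨w', h9⟩ := hR1 t ⟨w', h9⟩ ((hbit t).1 h1) ((hbit ⟨w', h9⟩).1 hw')
        (hadj ⟨w', h9⟩ hb)
      have e : (⟨p.1, by rw [← ht]; exact t.isLt⟩ : Fin 9) = t := Fin.ext ht.symm
      rcases hPp.2 (by rw [← ht]; exact t.isLt) with h2 | h2
      · right
        have e2 : (⟨v, hv9⟩ : Fin 9) = t := Fin.ext (by rw [ht, h2])
        rw [e2]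
        exact h4
      · right
        rw [e] at h2
        exact hRt _ _ _ h2 h4
    intro t u ht hu htu
    have k1 := key t.val ((hbit t).2 ht) t.isLt
    have k2 := key u.val ((hbit u).2 hu) u.isLt
    rcases k1 with k1 | k1
    · rcases k2 with k2 | k2
      · exact absurd (Fin.ext (k1.trans k2.symm)) htu
      · have e : (⟨v, hv9⟩ : Fin 9) = t := Fin.ext k1.symm
        rw [e] at k2
        exact k2
    · rcases k2 with k2 | k2
      · have e : (⟨v, hv9⟩ : Fin 9) = u := Fin.ext k2.symm
        rw [e] at k1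
        exact hRs _ _ k1
      · exact hRt _ _ _ (hRs _ _ k1) k2
  · right
    have hmem : m ∈ am := by simpa using h
    obtain ⟨o, ho⟩ := check_pat m hmem
    exact ⟨o, fun t => by rw [← ho t]; exact (hbit t).symm⟩

/-- The two completions of a compatible pair. -/
theorem quadB_true : ((List.finRange 9).all fun t => (List.finRange 9).all fun u =>
    !(cmp t u) || quad.any fun q => ((q.1 == t && q.2.1 == u) || (q.1 == u && q.2.1 == t)) &&
      (!(q.2.2.1 == q.2.2.2) &&
      ((tri.any fun p => ((p.1 == q.1 || p.1 == q.2.1 || p.1 == q.2.2.1) &&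
        (p.2.1 == q.1 || p.2.1 == q.2.1 || p.2.1 == q.2.2.1) &&
        (p.2.2 == q.1 || p.2.2 == q.2.1 || p.2.2 == q.2.2.1))) &&
      (tri.any fun p => ((p.1 == q.1 || p.1 == q.2.1 || p.1 == q.2.2.2) &&
        (p.2.1 == q.1 || p.2.1 == q.2.1 || p.2.1 == q.2.2.2) &&
        (p.2.2 == q.1 || p.2.2 == q.2.1 || p.2.2 == q.2.2.2)))))) = true := by
  decide +kernel

/-- Every compatible pair `t, u` is listed in `quad`, and its completions are active if `t` and
`u` are not. -/
theorem quad_spec (A : Fin 9 → Prop) (h3 : ∀ q ∈ tri, ¬ (¬ A q.1 ∧ ¬ A q.2.1 ∧ ¬ A q.2.2))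
    (t u : Fin 9) (htu : cmp t u = true) (ht : ¬ A t) (hu : ¬ A u) :
    ∃ q ∈ quad, ¬ A q.1 ∧ ¬ A q.2.1 ∧ A q.2.2.1 ∧ A q.2.2.2 ∧ q.2.2.1 ≠ q.2.2.2 := by
  have h0 := quadB_true
  rw [List.all_eq_true] at h0
  have h1 := h0 t (List.mem_finRange t)
  rw [List.all_eq_true] at h1
  have h2 := h1 u (List.mem_finRange u)
  rw [htu] at h2
  simp only [Bool.not_true, Bool.false_or] at h2
  rw [List.any_eq_true] at h2
  obtain ⟨q, hq, h4⟩ := h2
  rw [Bool.and_eq_true, Bool.and_eq_true, Bool.and_eq_true] at h4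
  obtain ⟨h5, h6, h7, h8⟩ := h4
  have hne : q.2.2.1 ≠ q.2.2.2 := by simpa using h6
  have hq12 : ¬ A q.1 ∧ ¬ A q.2.1 := by
    simp only [Bool.or_eq_true, Bool.and_eq_true, beq_iff_eq] at h5
    rcases h5 with ⟨a, b⟩ | ⟨a, b⟩
    · rw [a, b]; exact ⟨ht, hu⟩
    · rw [a, b]; exact ⟨hu, ht⟩
  have key : ∀ x : Fin 9, (tri.any fun p => ((p.1 == q.1 || p.1 == q.2.1 || p.1 == x) &&
        (p.2.1 == q.1 || p.2.1 == q.2.1 || p.2.1 == x) &&
        (p.2.2 == q.1 || p.2.2 == q.2.1 || p.2.2 == x))) = true → A x := by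
    intro x hx
    rw [List.any_eq_true] at hx
    obtain ⟨p, hp, hx⟩ := hx
    simp only [Bool.or_eq_true, Bool.and_eq_true, beq_iff_eq] at hx
    by_contra hAx
    refine h3 p hp ⟨?_, ?_, ?_⟩
    · rcases hx.1.1 with (h | h) | h <;> rw [h]
      exacts [hq12.1, hq12.2, hAx]
    · rcases hx.1.2 with (h | h) | h <;> rw [h]
      exacts [hq12.1, hq12.2, hAx]
    · rcases hx.2 with (h | h) | h <;> rw [h]
      exacts [hq12.1, hq12.2, hAx]
  exact ⟨q, hq, hq12.1, hq12.2, key _ h7, key _ h8, hne⟩

/-- The check over the 512 sets `A` of active tubes: `R` is an equivalence relation on `A`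
containing the compatible pairs. If no triple is inactive, for no inactive compatible pair the two
completions are related, and there is an inactive compatible pair, then `A` is one of the fifteen
patterns. -/
theorem pat_main (A : Fin 9 → Prop) (R : Fin 9 → Fin 9 → Prop)
    (hR1 : ∀ t u, A t → A u → cmp t u = true → R t u) (hRs : ∀ t u, R t u → R u t)
    (hRt : ∀ t u v, R t u → R u v → R t v)
    (h3 : ∀ q ∈ tri, ¬ (¬ A q.1 ∧ ¬ A q.2.1 ∧ ¬ A q.2.2))
    (h4 : ∀ q ∈ quad, ¬ A q.1 → ¬ A q.2.1 → ¬ R q.2.2.1 q.2.2.2)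
    (hi : ∃ t u, cmp t u = true ∧ ¬ A t ∧ ¬ A u) :
    ∃ o : Fin 15, ∀ t, A t ↔ act o t = true := by
  rcases pat_dich A R hR1 hRs hRt h3 with h | h
  · exfalso
    obtain ⟨t, u, htu, ht, hu⟩ := hi
    obtain ⟨q, hq, q1, q2, q3, q4, q5⟩ := quad_spec A h3 t u htu ht hu
    exact h4 q hq q1 q2 (h _ _ q3 q4 q5)
  · exact h

/-- If there is no inactive compatible pair then the active tubes are connected. -/
theorem pat_conn (A : Fin 9 → Prop) (R : Fin 9 → Fin 9 → Prop)
    (hR1 : ∀ t u, A t → A u → cmp t u = true → R t u) (hRs : ∀ t u, R t u → R u t)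
    (hRt : ∀ t u v, R t u → R u v → R t v) (hRr : ∀ t, A t → R t t)
    (hn : ∀ t u, cmp t u = true → A t ∨ A u) : ∀ t u, A t → A u → R t u := by
  have h3 : ∀ q ∈ tri, ¬ (¬ A q.1 ∧ ¬ A q.2.1 ∧ ¬ A q.2.2) := by
    have hc : (tri.all fun q => cmp q.1 q.2.1) = true := by decide +kernel
    rw [List.all_eq_true] at hc
    rintro q hq ⟨a, b, -⟩
    exact (hn _ _ (hc q hq)).elim a b
  intro t u ht hu
  by_cases htu : t = u
  · rw [← htu]; exact hRr t ht
  · rcases pat_dich A R hR1 hRs hRt h3 with h | ⟨o, ho⟩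
    · exact h t u ht hu htu
    · exfalso
      obtain ⟨x, y, -, -, hxy, hx, hy⟩ := star_inactive o 0
      rcases hn x y hxy with h | h
      · rw [ho, hx] at h; exact absurd h (by simp)
      · rw [ho, hy] at h; exact absurd h (by simp)

end FHH
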