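import Pool.Agent.W_d741h_h9.Rules
import Pool.Agent.W_d741h_h9.Pat

/-! MP_d741cf_al, H4 half: Lemma C1. Every chamber carries one of the fifteen patterns. -/

namespace FHH

/-- Induction over words. -/
theorem AH_ind {P : AH → Prop} (h1 : P 1) (hr : ∀ g i, P g → P (g * s i))
    (hl : ∀ g i, P g → P (g * (s i)⁻¹)) (g : AH) : P g := by
  have h2 : g ∈ Subgroup.closure (Set.range s) := by rw [AH_closure]; trivial
  induction h2 using Subgroup.closure_induction_right with
  | one => exact h1
  | mul_right x _ y hy ih =>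
    obtain ⟨i, rfl⟩ := hy
    exact hr x i ih
  | mul_inv_cancel x _ y hy ih =>
    obtain ⟨i, rfl⟩ := hy
    exact hl x i ih

namespace Ctx

variable (X : Ctx)

/-- Some chamber has an inactive compatible pair. Proof: otherwise at every chamber the active
tubes are pairwise `sim` (`pat_conn`), neighbouring chambers `g, g s_i` share an active tube
(`star_pair`, `T_star`), so all active tubes at all chambers are `sim` (induction over the word of
`g`, `AH_closure`), in particular an active `x = T t g` and `k x k⁻¹ = T t (k g)`: contradiction to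
`not_all_sim`. -/
theorem exists_inactive : ∃ (g : AH) (t u : Fin 9), cmp t u = true ∧ ¬ X.ac (T t g) ∧
    ¬ X.ac (T u g) := by
  by_contra hc
  have hn : ∀ g t u, cmp t u = true → X.ac (T t g) ∨ X.ac (T u g) := by
    intro g t u h
    by_contra h'
    rw [not_or] at h'
    exact hc ⟨g, t, u, h, h'.1, h'.2⟩
  have h1 : ∀ g t u, X.ac (T t g) → X.ac (T u g) → X.sim (T t g) (T u g) := fun g =>
    pat_conn (fun t => X.ac (T t g)) (fun t u => X.sim (T t g) (T u g))
      (fun t u ht hu h => X.sim_of_comm ht hu (T_comm t u h g)) (fun _ _ h => X.sim_symm h)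
      (fun _ _ _ h h' => X.sim_trans h h') (fun _ h => X.sim_refl h) (hn g)
  have h2 : ∀ g i, ∃ t, st i t = true ∧ X.ac (T t g) := by
    intro g i
    obtain ⟨t, u, ht, hu, h⟩ := star_pair i
    rcases hn g t u h with h' | h'
    · exact ⟨t, ht, h'⟩
    · exact ⟨u, hu, h'⟩
  obtain ⟨t0, -, ht0⟩ := h2 1 0
  have hall : ∀ g : AH, ∀ t, X.ac (T t g) → X.sim (T t0 1) (T t g) := by
    intro g
    refine AH_ind (P := fun g => ∀ t, X.ac (T t g) → X.sim (T t0 1) (T t g)) ?_ ?_ ?_ g
    · intro t ht
      exact h1 1 t0 t ht0 ht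
    · intro g i ih t ht
      obtain ⟨u, hu, hu'⟩ := h2 g i
      have h3 := ih u hu'
      rw [← T_star i u hu g] at h3 hu'
      exact X.sim_trans h3 (h1 _ u t hu' ht)
    · intro g i ih t ht
      obtain ⟨u, hu, hu'⟩ := h2 g i
      have h3 := ih u hu'
      rw [← T_star' i u hu g] at h3 hu'
      exact X.sim_trans h3 (h1 _ u t hu' ht)
  apply X.not_all_sim ht0
  intro k
  have h3 : (k : AH) * T t0 1 * (k : AH)⁻¹ = T t0 k := by
    simp only [T]
    group
  rw [h3]
  apply hall
  rw [← h3]
  intro h4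
  rw [X.ph_conj] at h4
  exact ht0 (conj_eq_one_iff.1 h4)

/-- A chamber with an inactive compatible pair has a pattern. -/
theorem pattern_of (g : AH) (h : ∃ t u : Fin 9, cmp t u = true ∧ ¬ X.ac (T t g) ∧
    ¬ X.ac (T u g)) : ∃ o : Fin 15, ∀ t, X.ac (T t g) ↔ act o t = true :=
  pat_main (fun t => X.ac (T t g)) (fun t u => X.sim (T t g) (T u g))
    (fun t u ht hu h => X.sim_of_comm ht hu (T_comm t u h g)) (fun _ _ h => X.sim_symm h)
    (fun _ _ _ h h' => X.sim_trans h h') (X.T_tri g) (X.T_quad g) h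

/-- Every chamber has an inactive compatible pair: by `pat_main` the chamber of the previous lemma
has a pattern, by `star_inactive` and `T_star` its neighbours `g s_i`, `g s_i⁻¹` have an inactive
compatible pair too, induction over words. -/
theorem all_inactive (g : AH) : ∃ t u : Fin 9, cmp t u = true ∧ ¬ X.ac (T t g) ∧
    ¬ X.ac (T u g) := by
  obtain ⟨g0, h0⟩ := X.exists_inactive
  have h1 : ∀ h : AH, ∃ t u : Fin 9, cmp t u = true ∧ ¬ X.ac (T t (g0 * h)) ∧
      ¬ X.ac (T u (g0 * h)) := by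
    intro h
    refine AH_ind (P := fun h => ∃ t u : Fin 9, cmp t u = true ∧ ¬ X.ac (T t (g0 * h)) ∧
      ¬ X.ac (T u (g0 * h))) ?_ ?_ ?_ h
    · simpa using h0
    · intro h i ih
      obtain ⟨o, ho⟩ := X.pattern_of _ ih
      obtain ⟨t, u, ht, hu, hc, h1, h2⟩ := star_inactive o i
      refine ⟨t, u, hc, ?_, ?_⟩
      · rw [← mul_assoc, T_star i t ht, ho, h1]; simp
      · rw [← mul_assoc, T_star i u hu, ho, h2]; simp
    · intro h i ih
      obtain ⟨o, ho⟩ := X.pattern_of _ ih
      obtain ⟨t, u, ht, hu, hc, h1, h2⟩ := star_inactive o i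
      refine ⟨t, u, hc, ?_, ?_⟩
      · rw [← mul_assoc, T_star' i t ht, ho, h1]; simp
      · rw [← mul_assoc, T_star' i u hu, ho, h2]; simp
  simpa using h1 (g0⁻¹ * g)

/-- Lemma C1. -/
theorem exists_pattern : ∃ O : AH → Fin 15, (∀ g t, X.ac (T t g) ↔ act (O g) t = true) ∧
    ∀ g i, O (g * s i) = O g ∨ O (g * s i) = mv i (O g) := by
  choose O hO using fun g => X.pattern_of g (X.all_inactive g)
  refine ⟨O, hO, fun g i => star_move _ _ i ?_⟩
  intro t ht
  have h1 := hO g t
  have h2 := hO (g * s i) t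
  rw [T_star i t ht g, h1] at h2
  exact Bool.eq_iff_iff.2 h2

end Ctx

end FHH
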