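import Mathlib

/-! MP_d741cf_al, H4 half: the tables of patterns. The tubes `t : Fin 9` are the point sets
`{1,2} {2,3} {3,4} {4,5} {1,2,3} {2,3,4} {3,4,5} {1,2,3,4} {2,3,4,5}` (subsets of `{0,..,5}`), the
patterns `o : Fin 15` are the 4-subsets `O` of `{0,..,5}`: `0123 0124 0125 0134 0135 0145 0234 0235
0245 0345 1234 1235 1245 1345 2345`; `t` is active for `O` when `|t ∩ O| = 2`. -/

namespace FHH

/-- The activity masks of the fifteen patterns. -/
def am : List ℕ := [291, 305, 401, 372, 464, 456, 86, 242, 232, 172, 71, 99, 121, 60, 30]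

/-- Tube `t` is active for the pattern `o`. -/
def act (o : Fin 15) (t : Fin 9) : Bool := (am.getD o.val 0).testBit t.val

/-- The moves: the transposition of the points `i + 1, i + 2`. -/
def mvl : List (List (Fin 15)) :=
  [[0, 1, 2, 6, 7, 8, 3, 4, 5, 9, 10, 11, 12, 14, 13],
   [0, 3, 4, 1, 2, 5, 6, 7, 9, 8, 10, 11, 13, 12, 14],
   [1, 0, 2, 3, 5, 4, 6, 8, 7, 9, 10, 12, 11, 13, 14],
   [0, 2, 1, 4, 3, 5, 7, 6, 8, 9, 11, 10, 12, 13, 14]]

/-- The move of the generator `i` on patterns. -/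
def mv (i : Fin 4) (o : Fin 15) : Fin 15 := (mvl.getD i.val []).getD o.val 0

/-- Compatible tubes: distinct, and nested or disjoint. -/
def cmp (t u : Fin 9) : Bool :=
  (([220, 440, 481, 339, 139, 390, 269, 55, 110] : List ℕ).getD t.val 0).testBit u.val

/-- The star of the generator `i`: the tube `i` and the tubes compatible with it. -/
def st (i : Fin 4) (t : Fin 9) : Bool :=
  (([221, 442, 485, 347] : List ℕ).getD i.val 0).testBit t.val

/-- The points of the pattern `o`, as a bit mask. -/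
def om (o : Fin 15) : ℕ :=
  ([15, 23, 39, 27, 43, 51, 29, 45, 53, 57, 30, 46, 54, 58, 60] : List ℕ).getD o.val 0

/-- The fourteen triples of pairwise compatible tubes. -/
def tri : List (Fin 9 × Fin 9 × Fin 9) :=
  [(0, 2, 6), (0, 2, 7), (0, 3, 4), (0, 3, 6), (0, 4, 7), (1, 3, 4), (1, 3, 8), (1, 4, 7),
   (1, 5, 7), (1, 5, 8), (2, 5, 7), (2, 5, 8), (2, 6, 8), (3, 6, 8)]

/-- The compatible pairs `t, u` with the two tubes `v, w` compatible with both. -/
def quad : List (Fin 9 × Fin 9 × Fin 9 × Fin 9) :=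
  [(0, 2, 6, 7), (0, 3, 4, 6), (0, 4, 3, 7), (0, 6, 2, 3), (0, 7, 2, 4), (1, 3, 4, 8),
   (1, 4, 3, 7), (1, 5, 7, 8), (1, 7, 4, 5), (1, 8, 3, 5), (2, 5, 7, 8), (2, 6, 0, 8),
   (2, 7, 0, 5), (2, 8, 5, 6), (3, 4, 0, 1), (3, 6, 0, 8), (3, 8, 1, 6), (4, 7, 0, 1),
   (5, 7, 1, 2), (5, 8, 1, 2), (6, 8, 2, 3)]

end FHH
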