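import Pool.Agent.W_d741h_h9.Basic
import Pool.Agent.W_d741h_h9.Tab

/-! MP_d741cf_al, H4 half: commutations of tubes, the centre. -/

namespace FHH

theorem z_comm (t u : Fin 9) (h : cmp t u = true) : z t * z u = z u * z t := by
  have h1 : ∀ t u : Fin 9, cmp t u = true →
      AG.rev CH 5000 (zw t ++ zw u) (zw u ++ zw t) = some ([], []) := by decide +kernel
  simpa [z] using pw_rev _ (h1 t u h)

theorem z_star (i : Fin 4) (t : Fin 9) (h : st i t = true) : z t * s i = s i * z t := by
  have h1 : ∀ (i : Fin 4) (t : Fin 9), st i t = true →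
      AG.rev CH 5000 (zw t ++ [i]) (i :: zw t) = some ([], []) := by decide +kernel
  simpa [z] using pw_rev _ (h1 i t h)

theorem zzw_comm (i : Fin 4) : pw zzw * s i = s i * pw zzw := by
  have h1 : ∀ i : Fin 4, AG.rev CH 5000 (zzw ++ [i]) (i :: zzw) = some ([], []) := by
    decide +kernel
  simpa using pw_rev _ (h1 i)

/-- An element commuting with the generators is central. -/
theorem central_of {x : AH} (h : ∀ i, x * s i = s i * x) (g : AH) : x * g = g * x := by
  have h1 : g ∈ Subgroup.closure (Set.range s) := by rw [AH_closure]; trivial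
  induction h1 using Subgroup.closure_induction with
  | mem y hy =>
    obtain ⟨i, rfl⟩ := hy
    exact h i
  | one => simp
  | mul y w _ _ h2 h3 => rw [← mul_assoc, h2, mul_assoc, h3, ← mul_assoc]
  | inv y _ h2 => exact (Commute.inv_right (show Commute x y from h2)).eq

theorem zz_central (g : AH) : zz * g = g * zz := by
  have h := central_of zzw_comm g
  rw [zz, mul_assoc, h, ← mul_assoc, h, mul_assoc]

theorem T_star (i : Fin 4) (t : Fin 9) (h : st i t = true) (g : AH) :
    T t (g * s i) = T t g := by
  have h1 : s i * z t * (s i)⁻¹ = z t := by rw [← z_star i t h, mul_inv_cancel_right]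
  calc T t (g * s i) = g * (s i * z t * (s i)⁻¹) * g⁻¹ := by simp only [T]; group
    _ = T t g := by rw [h1]; rfl

theorem T_star' (i : Fin 4) (t : Fin 9) (h : st i t = true) (g : AH) :
    T t (g * (s i)⁻¹) = T t g := by
  have h1 := T_star i t h (g * (s i)⁻¹)
  rw [inv_mul_cancel_right] at h1
  exact h1.symm

theorem T_comm (t u : Fin 9) (h : cmp t u = true) (g : AH) : T t g * T u g = T u g * T t g := by
  calc T t g * T u g = g * (z t * z u) * g⁻¹ := by simp only [T]; group
    _ = T u g * T t g := by rw [z_comm t u h]; simp only [T]; group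

end FHH
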