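import Pool.Agent.W_d741f_h35.FreeF

/-! MP_d741cf_al, H4 half: facts about commuting elements of a free group. -/

namespace FHH

variable {α : Type*}

/-- Commuting elements of a free group have a common root. (Proof: `closure {x, y}` is free by
Nielsen-Schreier and commutative, so free on at most one generator.) -/
theorem exists_root [DecidableEq α] (x y : FreeGroup α) (h : x * y = y * x) :
    ∃ (w : FreeGroup α) (m n : ℤ), x = w ^ m ∧ y = w ^ n := by
  by_cases hx : x = 1
  · exact ⟨y, 0, 1, by simp [hx], by simp⟩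
  · obtain ⟨c, -, hc⟩ := fg_cent x hx
    obtain ⟨n, hn⟩ := hc x rfl
    obtain ⟨m, hm⟩ := hc y h.symm
    exact ⟨c, n, m, hn, hm⟩

/-- (F1) A free group is torsion free. -/
theorem pow_ne_one {x : FreeGroup α} (h : x ≠ 1) {m : ℤ} (hm : m ≠ 0) : x ^ m ≠ 1 :=
  fun h1 => h (F1z hm h1)

/-- (F2) Commuting is transitive on the elements different from 1. -/
theorem comm_trans [DecidableEq α] {x y w : FreeGroup α} (hy : y ≠ 1) (h1 : x * y = y * x)
    (h2 : y * w = w * y) : x * w = w * x := F2t hy h1 h2

/-- (F3) Commuting elements different from 1 have a common power. -/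
theorem exists_pow_eq [DecidableEq α] {x y : FreeGroup α} (hx : x ≠ 1) (hy : y ≠ 1)
    (h : x * y = y * x) : ∃ p q : ℤ, p ≠ 0 ∧ q ≠ 0 ∧ x ^ p = y ^ q := F3 hx hy h

/-- (F4) If powers commute then the elements commute. -/
theorem comm_of_pow [DecidableEq α] {x y : FreeGroup α} {m n : ℤ} (hm : m ≠ 0) (hn : n ≠ 0)
    (h : x ^ m * y ^ n = y ^ n * x ^ m) : x * y = y * x := by
  by_cases hx : x = 1
  · rw [hx]; simp
  by_cases hy : y = 1
  · rw [hy]; simp
  have h1 : x * x ^ m = x ^ m * x := ((Commute.refl x).zpow_right m).eq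
  have h2 : y ^ n * y = y * y ^ n := ((Commute.refl y).zpow_left n).eq
  exact F2t (pow_ne_one hx hm) h1 (F2t (pow_ne_one hy hn) h h2)

/-- (F5) If `x ≠ 1` commutes with `k x k⁻¹` then `k` commutes with `x`. (Proof: let `w` be a
generator of the cyclic centralizer of `x`, `x = w ^ m`; `k x k⁻¹` has the same root up to sign, so
`k w k⁻¹ = w ^ (± 1)`; in the case `-1` the element `k ^ 2` commutes with `w`, so `k` commutes
with `w` by (F4) and `w = w⁻¹`, contradiction to (F1).) -/
theorem comm_of_conj [DecidableEq α] {x k : FreeGroup α} (hx : x ≠ 1)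
    (h : x * (k * x * k⁻¹) = (k * x * k⁻¹) * x) : k * x = x * k := F5 hx h

end FHH
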