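import Pool.Agent.W_d741h_h9.Comm
import Pool.Agent.W_d741h_h9.FreeF

/-! MP_d741cf_al, H4 half: the assumption (no Z^4 in the kernel), active elements. -/

namespace FHH

open FH

/-- A counterexample to the H4 half. `N` is even and `g ^ N ∈ K` for all `g`. -/
structure Ctx where
  /-- the subgroup -/
  K : Subgroup AH
  /-- the homomorphism -/
  f : K →* FreeGroup (Fin 2)
  /-- the exponent -/
  N : ℕ
  hN : 0 < N
  hN2 : 2 ∣ N
  hK : ∀ g : AH, g ^ N ∈ K
  hf : ∃ x y, f x * f y ≠ f y * f x
  hZ : ∀ z : Fin 4 → K, (∀ i, f (z i) = 1) → ¬ Indep4 z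

/-- A subgroup of finite index contains all `N`-th powers for some even `N > 0`. -/
theorem exists_exponent (K : Subgroup AH) (hK : K.FiniteIndex) :
    ∃ N : ℕ, 0 < N ∧ 2 ∣ N ∧ ∀ g : AH, g ^ N ∈ K := by
  have := hK
  refine ⟨K.normalCore.index * 2, ?_, dvd_mul_left _ _, fun g => ?_⟩
  · have h := Subgroup.FiniteIndex.index_ne_zero (H := K.normalCore)
    omega
  · rw [pow_mul]
    exact K.normalCore_le (pow_mem (Subgroup.pow_index_mem _ g) 2)

namespace Ctx

variable (X : Ctx)

/-- The image of the `N`-th power. -/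
def ph (x : AH) : FreeGroup (Fin 2) := X.f ⟨x ^ X.N, X.hK x⟩

/-- `x` is active. -/
def ac (x : AH) : Prop := X.ph x ≠ 1

/-- `x` and `y` are active and their images commute. -/
def sim (x y : AH) : Prop := X.ac x ∧ X.ac y ∧ X.ph x * X.ph y = X.ph y * X.ph x

theorem sim_of_comm {x y : AH} (hx : X.ac x) (hy : X.ac y) (h : x * y = y * x) : X.sim x y := by
  refine ⟨hx, hy, ?_⟩
  rw [ph, ph, ← map_mul, ← map_mul]
  congr 1
  apply Subtype.ext
  exact ((show Commute x y from h).pow_pow X.N X.N).eq

theorem sim_refl {x : AH} (hx : X.ac x) : X.sim x x := ⟨hx, hx, rfl⟩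

theorem sim_symm {x y : AH} (h : X.sim x y) : X.sim y x := ⟨h.2.1, h.1, h.2.2.symm⟩

theorem sim_trans {x y w : AH} (h : X.sim x y) (h' : X.sim y w) : X.sim x w :=
  ⟨h.1, h'.2.1, comm_trans h.2.1 h.2.2 h'.2.2⟩

/-- Conjugation by an element of `K`. -/
theorem ph_conj (k : X.K) (x : AH) :
    X.ph ((k : AH) * x * (k : AH)⁻¹) = X.f k * X.ph x * (X.f k)⁻¹ := by
  rw [ph, ph, ← map_inv, ← map_mul, ← map_mul]
  congr 1
  apply Subtype.ext
  show ((k : AH) * x * (k : AH)⁻¹) ^ X.N = (k : AH) * x ^ X.N * (k : AH)⁻¹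
  exact conj_pow

/-- A central element is inactive. -/
theorem central_inactive {w : AH} (hw : ∀ g, w * g = g * w) : ¬ X.ac w := by
  intro h
  obtain ⟨x, y, hxy⟩ := X.hf
  have key : ∀ k : X.K, X.f k * X.ph w = X.ph w * X.f k := by
    intro k
    rw [ph, ← map_mul, ← map_mul]
    congr 1
    apply Subtype.ext
    exact ((show Commute w (k : AH) from hw _).pow_left X.N).eq.symm
  exact hxy (comm_trans h (key x) (key y).symm)

/-- The centre is inactive. -/
theorem zz_inactive : ¬ X.ac zz := X.central_inactive zz_central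

/-- If all conjugates of `s 0` (equivalently: one active element and all its conjugates by `K`)
commute with an active element, the image of `f` is commutative: for an active `x`, it is not true
that `X.sim x (k x k⁻¹)` for all `k ∈ K` (F5, F2). -/
theorem not_all_sim {x : AH} (hx : X.ac x) :
    ¬ ∀ k : X.K, X.sim x ((k : AH) * x * (k : AH)⁻¹) := by
  intro h
  obtain ⟨u, v, huv⟩ := X.hf
  have key : ∀ k : X.K, X.f k * X.ph x = X.ph x * X.f k := by
    intro k
    have h1 := (h k).2.2
    rw [ph_conj] at h1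
    exact comm_of_conj hx h1
  exact huv (comm_trans hx (key u) (key v).symm)

end Ctx

end FHH
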