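import Pool.Agent.W_d741h_h9.Loc
import Pool.Agent.W_d741h_h4.Local

/-! MP_d741cf_al, H4 half: the H3 part, (2) of row 539. Typed by helper4. -/

namespace FHH

variable {ac : AH → Prop} {sim : AH → AH → Prop} {O : AH → Fin 15}

theorem act_rev : ∀ (o : Fin 15) (t : Fin 9), FHL.act (Fin.rev o) t = act o t := by
  decide +kernel

theorem mv_rev : ∀ (i : Fin 4) (o : Fin 15), FHL.mv i (Fin.rev o) = Fin.rev (mv i o) := by
  decide +kernel

theorem cls_rev : ∀ o : Fin 15, FHL.cls (Fin.rev o) = 0 → ex o = false := by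
  decide +kernel

theorem r01 : s 0 * s 1 * s 0 * s 1 * s 0 = s 1 * s 0 * s 1 * s 0 * s 1 := by
  have h := pw_rev 100 (u := [0, 1, 0, 1, 0]) (v := [1, 0, 1, 0, 1]) (by decide +kernel)
  simpa [mul_assoc] using h

theorem r12 : s 1 * s 2 * s 1 = s 2 * s 1 * s 2 := by
  have h := pw_rev 100 (u := [1, 2, 1]) (v := [2, 1, 2]) (by decide +kernel)
  simpa [mul_assoc] using h

theorem r23 : s 2 * s 3 * s 2 = s 3 * s 2 * s 3 := by
  have h := pw_rev 100 (u := [2, 3, 2]) (v := [3, 2, 3]) (by decide +kernel)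
  simpa [mul_assoc] using h

theorem r02 : s 0 * s 2 = s 2 * s 0 := by
  have h := pw_rev 100 (u := [0, 2]) (v := [2, 0]) (by decide +kernel)
  simpa [mul_assoc] using h

theorem c56 : s 1 * s 2 * s 3 * z 5 = z 6 * (s 1 * s 2 * s 3) := by
  have h := pw_rev 5000 (u := [1, 2, 3] ++ zw 5) (v := zw 6 ++ [1, 2, 3]) (by decide +kernel)
  rw [pw_append, pw_append] at h
  simpa [z, mul_assoc] using h

/-- The data of `Local`. -/
theorem Loc.dat (L : Loc ac sim O) : FHL.Dat s z ac sim (fun g => Fin.rev (O g)) where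
  z0 := by simp [z, zw]
  z1 := by simp [z, zw]
  z2 := by simp [z, zw]
  z3 := by simp [z, zw]
  r01 := r01
  r12 := r12
  r23 := r23
  r02 := r02
  p0 := z_star 0 4 (by decide)
  p1 := z_star 1 4 (by decide)
  q1 := z_star 1 5 (by decide)
  q2 := z_star 2 5 (by decide)
  c56 := c56
  hO := fun g t => by
    rw [act_rev]
    exact L.hO g t
  hmv := fun g i => by
    rw [mv_rev]
    rcases L.hmv g i with h | h
    · exact Or.inl (congrArg Fin.rev h)
    · exact Or.inr (congrArg Fin.rev h)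
  simC := L.comm
  simT := L.trans
  hb := L.sp

theorem Loc.not_ex (L : Loc ac sim O) (g : AH) : ex (O g) = false :=
  cls_rev _ (L.dat.cls0 g)

end FHH
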