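import Pool.Agent.W_d741h_h9.Comm

/-! MP_d741cf_al, H4 half: the independence statements. -/

namespace FHH

/-- `x, y, v` and the centre are independent (even exponents). -/
def Ind3 (x y v : AH) : Prop := ∀ a b c d : ℤ,
  x ^ (2 * a) * y ^ (2 * b) * v ^ (2 * c) * zz ^ (2 * d) = 1 → a = 0 ∧ b = 0 ∧ c = 0 ∧ d = 0

/-- `x, y`, every element `v ^ (2 p) w ^ (2 q)` (with `p, q ≠ 0`) and the centre are
independent. -/
def Ind4 (x y v w : AH) : Prop := ∀ a b c d p q : ℤ, p ≠ 0 → q ≠ 0 →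
  x ^ (2 * a) * y ^ (2 * b) * (v ^ (2 * p) * w ^ (2 * q)) ^ c * zz ^ (2 * d) = 1 →
  a = 0 ∧ b = 0 ∧ c = 0 ∧ d = 0

theorem conj_zpow' (g x : AH) (n : ℤ) : (g * x * g⁻¹) ^ n = g * x ^ n * g⁻¹ := conj_zpow

theorem Ind3.conj {x y v : AH} (h : Ind3 x y v) (g : AH) :
    Ind3 (g * x * g⁻¹) (g * y * g⁻¹) (g * v * g⁻¹) := by
  intro a b c d e
  refine h a b c d ?_
  rw [conj_zpow', conj_zpow', conj_zpow'] at e
  have hz : g⁻¹ * zz ^ (2 * d) = zz ^ (2 * d) * g⁻¹ :=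
    ((show Commute zz g⁻¹ from zz_central _).zpow_left _).eq.symm
  have e1 : g * (x ^ (2 * a) * y ^ (2 * b) * v ^ (2 * c) * zz ^ (2 * d)) * g⁻¹ = 1 := by
    calc _ = g * x ^ (2 * a) * y ^ (2 * b) * v ^ (2 * c) * (zz ^ (2 * d) * g⁻¹) := by group
      _ = g * x ^ (2 * a) * y ^ (2 * b) * v ^ (2 * c) * (g⁻¹ * zz ^ (2 * d)) := by rw [hz]
      _ = g * x ^ (2 * a) * g⁻¹ * (g * y ^ (2 * b) * g⁻¹) * (g * v ^ (2 * c) * g⁻¹) *
          zz ^ (2 * d) := by group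
      _ = 1 := e
  exact conj_eq_one_iff.mp e1

theorem Ind4.conj {x y v w : AH} (h : Ind4 x y v w) (g : AH) :
    Ind4 (g * x * g⁻¹) (g * y * g⁻¹) (g * v * g⁻¹) (g * w * g⁻¹) := by
  intro a b c d p q hp hq e
  refine h a b c d p q hp hq ?_
  have e0 : ((g * v * g⁻¹) ^ (2 * p) * (g * w * g⁻¹) ^ (2 * q)) ^ c =
      g * (v ^ (2 * p) * w ^ (2 * q)) ^ c * g⁻¹ := by
    have e2 : (g * v * g⁻¹) ^ (2 * p) * (g * w * g⁻¹) ^ (2 * q) =
        g * (v ^ (2 * p) * w ^ (2 * q)) * g⁻¹ := by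
      rw [conj_zpow', conj_zpow']
      generalize v ^ (2 * p) = v'
      generalize w ^ (2 * q) = w'
      group
    rw [e2, conj_zpow']
  rw [e0, conj_zpow', conj_zpow'] at e
  have hz : g⁻¹ * zz ^ (2 * d) = zz ^ (2 * d) * g⁻¹ :=
    ((show Commute zz g⁻¹ from zz_central _).zpow_left _).eq.symm
  have e1 : g * (x ^ (2 * a) * y ^ (2 * b) * (v ^ (2 * p) * w ^ (2 * q)) ^ c * zz ^ (2 * d)) *
      g⁻¹ = 1 := by
    calc _ = g * x ^ (2 * a) * y ^ (2 * b) * (v ^ (2 * p) * w ^ (2 * q)) ^ c *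
          (zz ^ (2 * d) * g⁻¹) := by group
      _ = g * x ^ (2 * a) * y ^ (2 * b) * (v ^ (2 * p) * w ^ (2 * q)) ^ c *
          (g⁻¹ * zz ^ (2 * d)) := by rw [hz]
      _ = g * x ^ (2 * a) * g⁻¹ * (g * y ^ (2 * b) * g⁻¹) *
          (g * (v ^ (2 * p) * w ^ (2 * q)) ^ c * g⁻¹) * zz ^ (2 * d) := by group
      _ = 1 := e
  exact conj_eq_one_iff.mp e1

end FHH
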