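import Pool.Agent.W_d741h_h9.Ind
import Pool.Agent.W_d741l_h62.Twist

/-! MP_d741cf_al, H4 half: the independences (linking numbers). Skeleton by helper9, proofs by
helper62. -/

namespace FHH

open LK

theorem pw_eq_wd (w : List (Fin 4)) : pw w = wd LK.s (w.map (fun i => (i, true))) := by
  induction w with
  | nil => simp [wd]
  | cons i t ih => simp only [pw_cons, List.map_cons, wd, ih]; rfl

theorem z_eq (t : Fin 9) : z t = LK.z t.castSucc := by
  have h : ∀ t : Fin 9, (zw t).map (fun i => (i, true)) = tw t.castSucc := by decide +kernel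
  rw [z, pw_eq_wd, h, LK.z]

theorem zz_eq : zz = LK.z 9 := by
  have h : (zzw ++ zzw).map (fun i => (i, true)) = tw 9 := by decide +kernel
  rw [zz, ← pw_append, pw_eq_wd, h, LK.z]

/-- linear independence of distinct twists, five at a time -/
theorem lin5 (t1 t2 t3 t4 : Fin 9) (h12 : t1 ≠ t2) (h13 : t1 ≠ t3) (h14 : t1 ≠ t4)
    (h23 : t2 ≠ t3) (h24 : t2 ≠ t4) (h34 : t3 ≠ t4) (a b c d e : ℤ)
    (h : ∀ r, a * cz t1.castSucc * ind t1.castSucc r + b * cz t2.castSucc * ind t2.castSucc r +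
      c * cz t3.castSucc * ind t3.castSucc r + d * cz t4.castSucc * ind t4.castSucc r +
      e * cz 9 * ind 9 r = 0) : a = 0 ∧ b = 0 ∧ c = 0 ∧ d = 0 ∧ e = 0 := by
  have hl : ∀ t : Fin 9, t.castSucc ≠ 9 := by decide
  have hi : ∀ t u : Fin 9, t ≠ u → t.castSucc ≠ u.castSucc := fun t u h e =>
    h (Fin.castSucc_injective _ e)
  generalize hu1 : t1.castSucc = u1 at *
  generalize hu2 : t2.castSucc = u2 at *
  generalize hu3 : t3.castSucc = u3 at *
  generalize hu4 : t4.castSucc = u4 at *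
  have n1 : u1 ≠ 9 := hu1 ▸ hl t1
  have n2 : u2 ≠ 9 := hu2 ▸ hl t2
  have n3 : u3 ≠ 9 := hu3 ▸ hl t3
  have n4 : u4 ≠ 9 := hu4 ▸ hl t4
  have k12 : u1 ≠ u2 := hu1 ▸ hu2 ▸ hi _ _ h12
  have k13 : u1 ≠ u3 := hu1 ▸ hu3 ▸ hi _ _ h13
  have k14 : u1 ≠ u4 := hu1 ▸ hu4 ▸ hi _ _ h14
  have k23 : u2 ≠ u3 := hu2 ▸ hu3 ▸ hi _ _ h23
  have k24 : u2 ≠ u4 := hu2 ▸ hu4 ▸ hi _ _ h24
  have k34 : u3 ≠ u4 := hu3 ▸ hu4 ▸ hi _ _ h34
  have hn := lin (fun U => (if U = u1 then a * cz u1 else 0) + (if U = u2 then b * cz u2 else 0) +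
    (if U = u3 then c * cz u3 else 0) + (if U = u4 then d * cz u4 else 0) +
    (if U = 9 then e * cz 9 else 0)) (fun r => by
      have := h r
      simp only [add_mul, ite_mul, zero_mul, Finset.sum_add_distrib, Finset.sum_ite_eq',
        Finset.mem_univ, if_true]
      exact this)
  have e1 := congrFun hn u1
  have e2 := congrFun hn u2
  have e3 := congrFun hn u3
  have e4 := congrFun hn u4
  have e5 := congrFun hn 9
  simp only [if_true, if_neg k12, if_neg k13, if_neg k14, if_neg n1, if_neg k12.symm, if_neg k23,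
    if_neg k24, if_neg n2, if_neg k13.symm, if_neg k23.symm, if_neg k34, if_neg n3,
    if_neg k14.symm, if_neg k24.symm, if_neg k34.symm, if_neg n4, if_neg n1.symm, if_neg n2.symm,
    if_neg n3.symm, if_neg n4.symm, add_zero, zero_add, Pi.zero_apply] at e1 e2 e3 e4 e5
  exact ⟨(mul_eq_zero.1 e1).resolve_right (cz_ne _), (mul_eq_zero.1 e2).resolve_right (cz_ne _),
    (mul_eq_zero.1 e3).resolve_right (cz_ne _), (mul_eq_zero.1 e4).resolve_right (cz_ne _),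
    (mul_eq_zero.1 e5).resolve_right (cz_ne _)⟩

theorem pure_zt (t : Fin 9) (k : ℤ) :
    Pure (z t ^ (2 * k)) (fun r => k * cz t.castSucc * ind t.castSucc r) := by
  rw [z_eq]; exact pure_zk _ _

theorem pure_zz (k : ℤ) : Pure (zz ^ (2 * k)) (fun r => k * cz 9 * ind 9 r) := by
  rw [zz_eq]; exact pure_zk _ _

theorem exists_fourth (t1 t2 t3 : Fin 9) : ∃ t4 : Fin 9, t1 ≠ t4 ∧ t2 ≠ t4 ∧ t3 ≠ t4 := by
  revert t1 t2 t3; decide

theorem ind3_of (t1 t2 t3 : Fin 9) (h12 : t1 ≠ t2) (h13 : t1 ≠ t3) (h23 : t2 ≠ t3) :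
    Ind3 (z t1) (z t2) (z t3) := by
  intro a b c d e
  obtain ⟨t4, h14, h24, h34⟩ := exists_fourth t1 t2 t3
  have hp := (((pure_zt t1 a).mul (pure_zt t2 b)).mul (pure_zt t3 c)).mul (pure_zz d)
  rw [e] at hp
  have hv := hp.eq Pure.one
  obtain ⟨r1, r2, r3, -, r5⟩ := lin5 t1 t2 t3 t4 h12 h13 h14 h23 h24 h34 a b c 0 d (fun r => by
    have := congrFun hv r
    simp only [Pi.add_apply, Pi.zero_apply] at this
    linarith)
  exact ⟨r1, r2, r3, r5⟩

theorem ind4_of (t1 t2 t3 t4 : Fin 9) (h12 : t1 ≠ t2) (h13 : t1 ≠ t3) (h14 : t1 ≠ t4)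
    (h23 : t2 ≠ t3) (h24 : t2 ≠ t4) (h34 : t3 ≠ t4) : Ind4 (z t1) (z t2) (z t3) (z t4) := by
  intro a b c d p q hp0 hq0 e
  have hp := (((pure_zt t1 a).mul (pure_zt t2 b)).mul
    (((pure_zt t3 p).mul (pure_zt t4 q)).zpow c)).mul (pure_zz d)
  rw [e] at hp
  have hv := hp.eq Pure.one
  obtain ⟨r1, r2, r3, r4, r5⟩ := lin5 t1 t2 t3 t4 h12 h13 h14 h23 h24 h34 a b (c * p) (c * q) d
    (fun r => by
      have := congrFun hv r
      simp only [Pi.add_apply, Pi.zero_apply, Pi.smul_apply, smul_eq_mul] at this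
      linarith)
  exact ⟨r1, r2, (mul_eq_zero.1 r3).resolve_right hp0, r5⟩

theorem ind3_tri : ∀ q ∈ tri, Ind3 (z q.1) (z q.2.1) (z q.2.2) := by
  have h : ∀ q ∈ tri, q.1 ≠ q.2.1 ∧ q.1 ≠ q.2.2 ∧ q.2.1 ≠ q.2.2 := by
    decide +kernel
  intro q hq
  obtain ⟨h1, h2, h3⟩ := h q hq
  exact ind3_of _ _ _ h1 h2 h3

theorem quad_ne : quad.all (fun q => decide (q.1 ≠ q.2.1) && decide (q.1 ≠ q.2.2.1) &&
    decide (q.1 ≠ q.2.2.2) && decide (q.2.1 ≠ q.2.2.1) && decide (q.2.1 ≠ q.2.2.2) &&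
    decide (q.2.2.1 ≠ q.2.2.2)) = true := by decide +kernel

theorem ind4_quad : ∀ q ∈ quad, Ind4 (z q.1) (z q.2.1) (z q.2.2.1) (z q.2.2.2) := by
  intro q hq
  have h := List.all_eq_true.1 quad_ne q hq
  simp only [Bool.and_eq_true, decide_eq_true_eq] at h
  obtain ⟨⟨⟨⟨⟨h1, h2⟩, h3⟩, h4⟩, h5⟩, h6⟩ := h
  exact ind4_of _ _ _ _ h1 h2 h3 h4 h5 h6

/-- the word of the tube of the special case -/
def wsp : List (Fin 4 × Bool) :=
  [(1, false), (2, false)] ++ (tw 4 ++ [(2, true), (1, true)])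

theorem pure_sp (k : ℤ) :
    Pure (T 4 ((s 1)⁻¹ * (s 2)⁻¹) ^ (2 * k)) (fun r => 2 * k * (ev wsp r).2) := by
  have h1 : ∀ r, ev wsp r = (r, (ev wsp r).2) := by decide +kernel
  have h2 := pure_wd wsp _ h1
  have h3 : wd LK.s wsp = T 4 ((s 1)⁻¹ * (s 2)⁻¹) := by
    rw [wsp, wd_append, wd_append, T, z_eq]
    have e1 : wd LK.s [(1, false), (2, false)] = (s 1)⁻¹ * (s 2)⁻¹ := by
      simp only [wd, mul_one]; rfl
    have e2 : wd LK.s [(2, true), (1, true)] = s 2 * s 1 := by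
      simp only [wd, mul_one]; rfl
    have e3 : wd LK.s (tw 4) = LK.z (Fin.castSucc 4) := rfl
    rw [e1, e2, e3, mul_inv_rev, inv_inv, inv_inv, ← mul_assoc]
  rw [h3] at h2
  have h4 := h2.zpow (2 * k)
  have e : ((2 * k) • fun r => (ev wsp r).2) = fun r => 2 * k * (ev wsp r).2 := by
    funext r; simp
  rw [e] at h4
  exact h4

theorem ind4_special : Ind4 (z 2) (z 7) (T 4 ((s 1)⁻¹ * (s 2)⁻¹)) (z 0) := by
  intro a b c d p q hp0 hq0 e
  have hp := (((pure_zt 2 a).mul (pure_zt 7 b)).mul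
    (((pure_sp p).mul (pure_zt 0 q)).zpow c)).mul (pure_zz d)
  rw [e] at hp
  have hv := hp.eq Pure.one
  have v0 : (ev wsp 0).2 = 0 := by decide +kernel
  have v1 : (ev wsp 1).2 = 0 := by decide +kernel
  have v13 : (ev wsp 13).2 = 0 := by decide +kernel
  have v2 : (ev wsp 2).2 = 2 := by decide +kernel
  have i0 : ∀ T, ind T 0 = ![1, 0, 0, 0, 1, 0, 0, 1, 0, 1] T := by decide +kernel
  have i1 : ∀ T, ind T 1 = ![0, 1, 0, 0, 1, 1, 0, 1, 1, 1] T := by decide +kernel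
  have i2 : ∀ T, ind T 2 = ![0, 0, 1, 0, 0, 1, 1, 1, 1, 1] T := by decide +kernel
  have i13 : ∀ T, ind T 13 = ![0, 0, 0, 0, 0, 0, 0, 0, 0, 1] T := by decide +kernel
  have w0 := congrFun hv 0
  have w1 := congrFun hv 1
  have w2 := congrFun hv 2
  have w13 := congrFun hv 13
  simp only [Pi.add_apply, Pi.zero_apply, Pi.smul_apply, smul_eq_mul, v0, v1, v2, v13, i0, i1, i2,
    i13] at w0 w1 w2 w13
  simp [cz] at w0 w1 w2 w13
  have hb : b = 0 := by omega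
  have hc : c * (q * 2) = 0 := by omega
  have hc0 : c = 0 := (mul_eq_zero.1 hc).resolve_right (mul_ne_zero hq0 two_ne_zero)
  subst hb hc0 w13
  refine ⟨by omega, rfl, rfl, rfl⟩

end FHH
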