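import Pool.Agent.W_d741h_h9.Comm

/-! MP_d741cf_al, H4 half: the local data after Lemma C1. -/

namespace FHH

/-- Activity `ac`, relation `sim`, patterns `O`. -/
structure Loc (ac : AH → Prop) (sim : AH → AH → Prop) (O : AH → Fin 15) : Prop where
  hO : ∀ g t, ac (T t g) ↔ act (O g) t = true
  hmv : ∀ g i, O (g * s i) = O g ∨ O (g * s i) = mv i (O g)
  comm : ∀ x y, ac x → ac y → x * y = y * x → sim x y
  trans : ∀ x y w, sim x y → sim y w → sim x w
  sp : ∀ g, ¬ ac (T 2 g) → ¬ ac (T 7 g) → ¬ sim (T 4 (g * (s 1)⁻¹ * (s 2)⁻¹)) (T 0 g)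

/-- The pattern contains exactly one of the points `0, 5`. -/
def ex (o : Fin 15) : Bool := (om o).testBit 0 != (om o).testBit 5

variable {ac : AH → Prop} {sim : AH → AH → Prop} {O : AH → Fin 15}

/-- Moves by inverse generators. -/
theorem Loc.hmv' (L : Loc ac sim O) (g : AH) (i : Fin 4) :
    O (g * (s i)⁻¹) = O g ∨ O (g * (s i)⁻¹) = mv i (O g) := by
  have hm : ∀ (i : Fin 4) (o : Fin 15), mv i (mv i o) = o := by decide +kernel
  have h := L.hmv (g * (s i)⁻¹) i
  rw [inv_mul_cancel_right] at h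
  rcases h with h | h
  · exact Or.inl h.symm
  · right
    rw [h, hm]

end FHH
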