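import Pool.Agent.W_d741h_h9.Ctx
import Pool.Agent.W_d741h_h9.Lk

/-! MP_d741cf_al, H4 half: rules (a) and (b) of the proof, at every chamber. -/

namespace FHH

open FH

theorem zpow_even {x : AH} {N M : ℕ} (h : N = 2 * M) (p : ℤ) :
    (x ^ N) ^ p = x ^ (2 * ((M : ℤ) * p)) := by
  rw [h, ← zpow_natCast, ← zpow_mul]
  congr 1
  push_cast
  ring

namespace Ctx

variable (X : Ctx)

/-- Four commuting independent elements of `K` killed by `f` do not exist. -/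
theorem four (a b c d : X.K) (ha : X.f a = 1) (hb : X.f b = 1) (hc : X.f c = 1) (hd : X.f d = 1)
    (hab : Commute (a : AH) b) (hac : Commute (a : AH) c) (had : Commute (a : AH) d)
    (hbc : Commute (b : AH) c) (hbd : Commute (b : AH) d) (hcd : Commute (c : AH) d)
    (hi : ∀ p q r t : ℤ, (a : AH) ^ p * (b : AH) ^ q * (c : AH) ^ r * (d : AH) ^ t = 1 →
      p = 0 ∧ q = 0 ∧ r = 0 ∧ t = 0) : False := by
  refine X.hZ ![a, b, c, d] ?_ ⟨?_, ?_⟩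
  · intro i
    fin_cases i
    · exact ha
    · exact hb
    · exact hc
    · exact hd
  · intro i j
    fin_cases i <;> fin_cases j <;> apply Subtype.ext
    · rfl
    · exact hab.eq
    · exact hac.eq
    · exact had.eq
    · exact hab.eq.symm
    · rfl
    · exact hbc.eq
    · exact hbd.eq
    · exact hac.eq.symm
    · exact hbc.eq.symm
    · rfl
    · exact hcd.eq
    · exact had.eq.symm
    · exact hbd.eq.symm
    · exact hcd.eq.symm
    · rfl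
  · intro n hn
    have h1 : a ^ n 0 * b ^ n 1 * c ^ n 2 * d ^ n 3 = 1 := hn
    have h2 : (a : AH) ^ n 0 * (b : AH) ^ n 1 * (c : AH) ^ n 2 * (d : AH) ^ n 3 = 1 := by
      have := congrArg (fun k : X.K => (k : AH)) h1
      simpa using this
    obtain ⟨h3, h4, h5, h6⟩ := hi _ _ _ _ h2
    funext i
    fin_cases i
    · exact h3
    · exact h4
    · exact h5
    · exact h6

theorem ph_inactive {x : AH} (h : ¬ X.ac x) : X.f ⟨x ^ X.N, X.hK x⟩ = 1 := not_not.1 h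

theorem zz_comm_left (x : AH) : Commute x zz := (zz_central x).symm

/-- Rule (a). The four elements `x ^ N, y ^ N, v ^ N, zz ^ N` of `K` commute; if `x, y, v` are
inactive they are killed by `f` and independent by `Ind3` (`N = 2 * M`, `M ≠ 0`): contradiction to
`hZ`. -/
theorem rule3 {x y v : AH} (hxy : x * y = y * x) (hxv : x * v = v * x) (hyv : y * v = v * y)
    (h : Ind3 x y v) (hx : ¬ X.ac x) (hy : ¬ X.ac y) : X.ac v := by
  by_contra hv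
  obtain ⟨M, hM⟩ := X.hN2
  have hM0 : (M : ℤ) ≠ 0 := by
    have := X.hN
    rw [hM] at this
    exact_mod_cast (by omega : M ≠ 0)
  refine X.four ⟨x ^ X.N, X.hK x⟩ ⟨y ^ X.N, X.hK y⟩ ⟨v ^ X.N, X.hK v⟩ ⟨zz ^ X.N, X.hK zz⟩
    (X.ph_inactive hx) (X.ph_inactive hy) (X.ph_inactive hv) (X.ph_inactive X.zz_inactive)
    ((show Commute x y from hxy).pow_pow _ _) ((show Commute x v from hxv).pow_pow _ _)
    ((zz_comm_left x).pow_pow _ _) ((show Commute y v from hyv).pow_pow _ _)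
    ((zz_comm_left y).pow_pow _ _) ((zz_comm_left v).pow_pow _ _) ?_
  intro p q r t e
  simp only [zpow_even hM] at e
  obtain ⟨h1, h2, h3, h4⟩ := h _ _ _ _ e
  exact ⟨(mul_eq_zero.1 h1).resolve_left hM0, (mul_eq_zero.1 h2).resolve_left hM0,
    (mul_eq_zero.1 h3).resolve_left hM0, (mul_eq_zero.1 h4).resolve_left hM0⟩

/-- Rule (b). If `v ~ w` then `f (v ^ N) ^ p = f (w ^ N) ^ q` with `p, q ≠ 0` (F3), and
`u = v ^ (N p) w ^ (- N q)` is in the kernel and commutes with `x ^ N, y ^ N, zz ^ N`; independent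
by `Ind4` (with exponents `N p = 2 (M p)`, `-N q = 2 (- M q)`): contradiction to `hZ`. -/
theorem rule4 {x y v w : AH} (hxy : x * y = y * x) (hxv : x * v = v * x) (hxw : x * w = w * x)
    (hyv : y * v = v * y) (hyw : y * w = w * y) (h : Ind4 x y v w) (hx : ¬ X.ac x)
    (hy : ¬ X.ac y) : ¬ X.sim v w := by
  rintro ⟨hv, hw, hvw⟩
  obtain ⟨M, hM⟩ := X.hN2
  have hM0 : (M : ℤ) ≠ 0 := by
    have := X.hN
    rw [hM] at this
    exact_mod_cast (by omega : M ≠ 0)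
  obtain ⟨p, q, hp, hq, hpq⟩ := exists_pow_eq hv hw hvw
  set V : X.K := ⟨v ^ X.N, X.hK v⟩ with hV
  set W : X.K := ⟨w ^ X.N, X.hK w⟩ with hW
  have hu : X.f (V ^ p * W ^ (-q)) = 1 := by
    rw [map_mul, map_zpow, map_zpow]
    change (X.ph v) ^ p * (X.ph w) ^ (-q) = 1
    rw [hpq, ← zpow_add, add_neg_cancel, zpow_zero]
  have hc : ((V ^ p * W ^ (-q) : X.K) : AH) = v ^ (2 * ((M : ℤ) * p)) * w ^ (2 * ((M : ℤ) * -q)) := by
    rw [Subgroup.coe_mul, Subgroup.coe_zpow, Subgroup.coe_zpow, hV, hW]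
    change (v ^ X.N) ^ p * (w ^ X.N) ^ (-q) = _
    rw [zpow_even hM, zpow_even hM]
  have key : ∀ {a : AH}, Commute a v → Commute a w →
      Commute (a ^ X.N) ((V ^ p * W ^ (-q) : X.K) : AH) := by
    intro a h1 h2
    rw [hc]
    exact (((h1.zpow_right _).mul_right (h2.zpow_right _)).pow_left _)
  refine X.four ⟨x ^ X.N, X.hK x⟩ ⟨y ^ X.N, X.hK y⟩ (V ^ p * W ^ (-q)) ⟨zz ^ X.N, X.hK zz⟩
    (X.ph_inactive hx) (X.ph_inactive hy) hu (X.ph_inactive X.zz_inactive)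
    ((show Commute x y from hxy).pow_pow _ _) (key hxv hxw)
    ((zz_comm_left x).pow_pow _ _) (key hyv hyw)
    ((zz_comm_left y).pow_pow _ _) (key (zz_comm_left v).symm (zz_comm_left w).symm).symm ?_
  intro i j k l e
  rw [hc] at e
  have e' : x ^ (2 * ((M : ℤ) * i)) * y ^ (2 * ((M : ℤ) * j)) *
      (v ^ (2 * ((M : ℤ) * p)) * w ^ (2 * ((M : ℤ) * -q))) ^ k * zz ^ (2 * ((M : ℤ) * l)) = 1 := by
    rw [← zpow_even hM i, ← zpow_even hM j, ← zpow_even hM l]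
    exact e
  obtain ⟨h1, h2, h3, h4⟩ := h _ _ _ _ _ _ (mul_ne_zero hM0 hp)
    (mul_ne_zero hM0 (neg_ne_zero.2 hq)) e'
  exact ⟨(mul_eq_zero.1 h1).resolve_left hM0, (mul_eq_zero.1 h2).resolve_left hM0,
    h3, (mul_eq_zero.1 h4).resolve_left hM0⟩

theorem tri_cmp (q : Fin 9 × Fin 9 × Fin 9) (hq : q ∈ tri) : cmp q.1 q.2.1 = true ∧
    cmp q.1 q.2.2 = true ∧ cmp q.2.1 q.2.2 = true := by
  have h : (tri.all fun q => cmp q.1 q.2.1 && (cmp q.1 q.2.2 && cmp q.2.1 q.2.2)) = true := by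
    decide
  simpa [Bool.and_eq_true] using List.all_eq_true.1 h q hq

theorem quad_cmp (q : Fin 9 × Fin 9 × Fin 9 × Fin 9) (hq : q ∈ quad) : cmp q.1 q.2.1 = true ∧
    cmp q.1 q.2.2.1 = true ∧ cmp q.1 q.2.2.2 = true ∧ cmp q.2.1 q.2.2.1 = true ∧
    cmp q.2.1 q.2.2.2 = true := by
  have h : (quad.all fun q => cmp q.1 q.2.1 && (cmp q.1 q.2.2.1 && (cmp q.1 q.2.2.2 &&
      (cmp q.2.1 q.2.2.1 && cmp q.2.1 q.2.2.2)))) = true := by
    decide
  simpa [Bool.and_eq_true] using List.all_eq_true.1 h q hq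

theorem T_tri (g : AH) : ∀ q ∈ tri, ¬ (¬ X.ac (T q.1 g) ∧ ¬ X.ac (T q.2.1 g) ∧
    ¬ X.ac (T q.2.2 g)) := by
  intro q hq h
  obtain ⟨c1, c2, c3⟩ := tri_cmp q hq
  exact h.2.2 (X.rule3 (T_comm _ _ c1 g) (T_comm _ _ c2 g) (T_comm _ _ c3 g)
    ((ind3_tri q hq).conj g) h.1 h.2.1)

theorem T_quad (g : AH) : ∀ q ∈ quad, ¬ X.ac (T q.1 g) → ¬ X.ac (T q.2.1 g) →
    ¬ X.sim (T q.2.2.1 g) (T q.2.2.2 g) := by
  intro q hq h1 h2
  obtain ⟨c1, c2, c3, c4, c5⟩ := quad_cmp q hq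
  exact X.rule4 (T_comm _ _ c1 g) (T_comm _ _ c2 g) (T_comm _ _ c3 g) (T_comm _ _ c4 g)
    (T_comm _ _ c5 g) ((ind4_quad q hq).conj g) h1 h2

/-- The special case of rule (b): `T 2 g`, `T 7 g` inactive. `T 2 g` commutes with the tube
`T 4 (g b⁻¹ c⁻¹)` because `T 2 g = T 1 (g b⁻¹ c⁻¹)` (`b c b = c b c`, b = s 1, c = s 2). -/
theorem T_special (g : AH) (h2 : ¬ X.ac (T 2 g)) (h7 : ¬ X.ac (T 7 g)) :
    ¬ X.sim (T 4 (g * (s 1)⁻¹ * (s 2)⁻¹)) (T 0 g) := by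
  have e1 : T 2 g = T 1 (g * (s 1)⁻¹ * (s 2)⁻¹) := by
    have h : s 1 * (s 2 * s 1) = s 2 * (s 1 * s 2) := by
      simpa using pw_rev (u := [1, 2, 1]) (v := [2, 1, 2]) 50 (by decide +kernel)
    have h' : (s 2)⁻¹ * s 1 * s 2 = s 1 * s 2 * (s 1)⁻¹ := by
      calc (s 2)⁻¹ * s 1 * s 2 = (s 2)⁻¹ * (s 1 * (s 2 * s 1)) * (s 1)⁻¹ := by group
        _ = (s 2)⁻¹ * (s 2 * (s 1 * s 2)) * (s 1)⁻¹ := by rw [h]
        _ = s 1 * s 2 * (s 1)⁻¹ := by group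
    have h'' : (s 1)⁻¹ * ((s 2)⁻¹ * s 1 * s 2) * s 1 = s 2 := by
      rw [h']; group
    have hz1 : z 1 = s 1 := by simp [z, zw]
    have hz2 : z 2 = s 2 := by simp [z, zw]
    unfold T
    rw [hz1, hz2]
    calc g * s 2 * g⁻¹ = g * ((s 1)⁻¹ * ((s 2)⁻¹ * s 1 * s 2) * s 1) * g⁻¹ := by rw [h'']
      _ = g * (s 1)⁻¹ * (s 2)⁻¹ * s 1 * (g * (s 1)⁻¹ * (s 2)⁻¹)⁻¹ := by group
  have e7 : T 7 (g * (s 1)⁻¹ * (s 2)⁻¹) = T 7 g := by
    rw [T_star' 2 7 (by decide), T_star' 1 7 (by decide)]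
  refine X.rule4 (T_comm _ _ (by decide) g) ?_ (T_comm _ _ (by decide) g) ?_
    (T_comm _ _ (by decide) g) ?_ h2 h7
  · rw [e1]; exact T_comm _ _ (by decide) _
  · rw [← e7]; exact T_comm _ _ (by decide) _
  · have := ind4_special.conj g
    have e4 : T 4 (g * (s 1)⁻¹ * (s 2)⁻¹) = g * T 4 ((s 1)⁻¹ * (s 2)⁻¹) * g⁻¹ := by
      unfold T; group
    rw [e4]
    exact this

end Ctx

end FHH
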